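import Pool.Agent.helper55.NK.Spec

namespace Pool.Agent.helper54.NK

open Pool.Agent.NK Finset

theorem TOP_r1 {x y w : ℝ} (hx : 2 ≤ x) (hy : 2 ≤ y) (hw : 9 ≤ w) : 0 ≤ r1 x y w := by
  unfold r1
  have h1 : 0 ≤ y * w - 1 := by nlinarith
  have h2 : 0 ≤ x := by linarith
  have h3 : 0 ≤ w := by linarith
  have h4 : 0 ≤ y := by linarith
  apply div_nonneg
  · exact mul_nonneg h2 h1
  · positivity

theorem TOP_r2 {x y w : ℝ} (hx : 2 ≤ x) (hy : 2 ≤ y) (hw : 9 ≤ w) : 0 ≤ r2 x y w := by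
  unfold r2
  have h1 : 0 ≤ y * w - 1 := by nlinarith
  have h1' : 0 ≤ y * w - 2 := by nlinarith
  have h2 : 0 ≤ x := by linarith
  have h2' : 0 ≤ x - 1 := by linarith
  have h3 : 0 ≤ w := by linarith
  have h4 : 0 ≤ y := by linarith
  apply div_nonneg
  · exact mul_nonneg (mul_nonneg (mul_nonneg h2 h2') h1) h1'
  · positivity

theorem TOP_qq {x y w : ℝ} (hx : 2 ≤ x) (hy : 2 ≤ y) (hw : 9 ≤ w) : 0 ≤ qq x y w := by
  unfold qq
  have h1 := TOP_r1 hx hy hw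
  have h2 := TOP_r1 hy hx hw
  have h3 := TOP_r2 hx hy hw
  have h4 := TOP_r2 hy hx hw
  linarith

theorem TOP (hUNI : UNI_stmt) (hVAN : VAN_stmt) (hRA1 : RA1_stmt) (hRA2 : RA2_stmt) : TOP_stmt := by
  intro a b i j hi hj hn
  have hUN := hUNI a b i j (by omega) (by omega) (by omega)
  have htpos : 0 < i + j := by omega
  obtain ⟨A, hA⟩ : ∃ A, A = i * (a + b + 1) / (i + j) := ⟨_, rfl⟩
  rw [← hA] at hUN
  have hdm := Nat.div_add_mod (i * (a + b + 1)) (i + j)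
  have hml := Nat.mod_lt (i * (a + b + 1)) htpos
  rw [← hA] at hdm
  have h1 : A * (i + j) ≤ i * (a + b + 1) := by
    rw [mul_comm A]; omega
  have h2 : i * (a + b + 1) < (A + 1) * (i + j) := by
    have : (A + 1) * (i + j) = (i + j) * A + (i + j) := by ring
    omega
  have hAn : A ≤ a + b := by
    by_contra hcon
    push Not at hcon
    have h3 : (a + b + 1) * (i + j) ≤ A * (i + j) := Nat.mul_le_mul_right _ hcon
    have h4 : (a + b + 1) * (i + j) = i * (a + b + 1) + (a + b + 1) * j := by ring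
    have h5 : 0 < (a + b + 1) * j := by positivity
    omega
  obtain ⟨B, hB⟩ : ∃ B, B = a + b - A := ⟨_, rfl⟩
  rw [← hB] at hUN
  have hAB : A + B = a + b := by omega
  have hi' : (2 : ℝ) ≤ (i : ℝ) := by exact_mod_cast hi
  have hj' : (2 : ℝ) ≤ (j : ℝ) := by exact_mod_cast hj
  have htR : (0 : ℝ) < (i : ℝ) + (j : ℝ) := by linarith
  obtain ⟨w, hwdef⟩ : ∃ w : ℝ, w = ((a : ℝ) + b + 1) / ((i : ℝ) + j) - 1 := ⟨_, rfl⟩
  have hwt : (w + 1) * ((i : ℝ) + j) = (a : ℝ) + b + 1 := by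
    rw [hwdef]
    field_simp
    ring
  have hnR : (10 : ℝ) * ((i : ℝ) + j) ≤ (a : ℝ) + b + 1 := by exact_mod_cast hn
  have hw : 9 ≤ w := by
    have : (10 : ℝ) * ((i : ℝ) + j) ≤ (w + 1) * ((i : ℝ) + j) := by rw [hwt]; exact hnR
    have := le_of_mul_le_mul_right this htR
    linarith
  have h1R : (A : ℝ) * ((i : ℝ) + j) ≤ (i : ℝ) * ((a : ℝ) + b + 1) := by exact_mod_cast h1
  have h2R : (i : ℝ) * ((a : ℝ) + b + 1) < ((A : ℝ) + 1) * ((i : ℝ) + j) := by exact_mod_cast h2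
  rw [← hwt, ← mul_assoc] at h1R h2R
  have h1S : (A : ℝ) ≤ (i : ℝ) * (w + 1) := le_of_mul_le_mul_right h1R htR
  have h2S : (i : ℝ) * (w + 1) < (A : ℝ) + 1 := lt_of_mul_lt_mul_right h2R htR.le
  have hABR : (A : ℝ) + B = (a : ℝ) + b := by exact_mod_cast hAB
  have hBe : (B : ℝ) = (w + 1) * ((i : ℝ) + j) - 1 - A := by linarith
  have e1 : (A : ℝ) - i ≤ i * w := by linarith
  have e2 : (i : ℝ) * w - 1 ≤ (A : ℝ) - i := by linarith
  have e3 : (B : ℝ) - j ≤ j * w := by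
    rw [hBe]; nlinarith
  have e4 : (j : ℝ) * w - 1 ≤ (B : ℝ) - j := by
    rw [hBe]; nlinarith
  have hiA : i ≤ A := by
    have : (i : ℝ) ≤ (A : ℝ) := by nlinarith
    exact_mod_cast this
  have hjB : j ≤ B := by
    have : (j : ℝ) ≤ (B : ℝ) := by nlinarith
    exact_mod_cast this
  have r11 := hRA1 A B i j w (by omega) (by omega) hiA hjB hw e1 e4
  have r12 := hRA1 B A j i w (by omega) (by omega) hjB hiA hw e3 e2
  have r21 := hRA2 A B i j w hi (by omega) hiA hjB hw e1 e4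
  have r22 := hRA2 B A j i w hj (by omega) hjB hiA hw e3 e2
  have hV := hVAN A B i j hi hj
  rw [hAB] at hV
  have hVR : (A.choose i : ℝ) * (B.choose j : ℝ) +
      (A.choose (i - 1) : ℝ) * (B.choose (j + 1) : ℝ) +
      (A.choose (i + 1) : ℝ) * (B.choose (j - 1) : ℝ) +
      (A.choose (i - 2) : ℝ) * (B.choose (j + 2) : ℝ) +
      (A.choose (i + 2) : ℝ) * (B.choose (j - 2) : ℝ) ≤ ((a + b).choose (i + j) : ℝ) := by
    exact_mod_cast hV
  have hUR : (a.choose i : ℝ) * (b.choose j : ℝ) ≤ (A.choose i : ℝ) * (B.choose j : ℝ) := by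
    exact_mod_cast hUN
  refine ⟨w, hw, ?_⟩
  have hq := TOP_qq hi' hj' hw
  have step1 := mul_le_mul_of_nonneg_right hUR hq
  refine step1.trans ?_
  have hexp : (A.choose i : ℝ) * (B.choose j : ℝ) * qq i j w =
      (A.choose i : ℝ) * (B.choose j : ℝ) +
      r1 i j w * ((A.choose i : ℝ) * (B.choose j : ℝ)) +
      r1 j i w * ((B.choose j : ℝ) * (A.choose i : ℝ)) +
      r2 i j w * ((A.choose i : ℝ) * (B.choose j : ℝ)) +
      r2 j i w * ((B.choose j : ℝ) * (A.choose i : ℝ)) := by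
    unfold qq
    ring
  rw [hexp]
  have c1 : (B.choose (j - 1) : ℝ) * (A.choose (i + 1) : ℝ) =
      (A.choose (i + 1) : ℝ) * (B.choose (j - 1) : ℝ) := mul_comm _ _
  have c2 : (B.choose (j - 2) : ℝ) * (A.choose (i + 2) : ℝ) =
      (A.choose (i + 2) : ℝ) * (B.choose (j - 2) : ℝ) := mul_comm _ _
  rw [c1] at r12
  rw [c2] at r22
  linarith

end Pool.Agent.helper54.NK
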